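import Pool.Agent.H48.M5.Spr
import Pool.Agent.H48.M5.Lag

/-!
# SPAN: forms with separated bases span
-/

set_option autoImplicit false

namespace Pool.M5

open Finset Real
open Pool.Agent.H49.Ent Pool.Agent.H32.Dense Pool.STK Pool.KAF

namespace Span

/-- A square matrix which is bounded from below has an inverse with bounded entries. -/
theorem exists_inv {n : ℕ} (q : Fin n → Fin n → ℝ) (B : ℝ)
    (h : ∀ (x : Fin n → ℝ) (F : ℝ), 0 ≤ F → (∀ i, |∑ a, q i a * x a| ≤ F) →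
      ∀ a, |x a| ≤ B * F) : Pool.SLO.Spn B q := by
  classical
  obtain ⟨A, hA⟩ : ∃ A : Matrix (Fin n) (Fin n) ℝ, A = Matrix.of q := ⟨_, rfl⟩
  have hAq : ∀ i a, A i a = q i a := by
    intro i a
    rw [hA, Matrix.of_apply]
  have hinj : Function.Injective A.mulVec := by
    intro x y hxy
    funext a
    have h1 := h (fun a => x a - y a) 0 le_rfl (by
      intro i
      have h2 := congrFun hxy i
      unfold Matrix.mulVec dotProduct at h2
      simp only [hAq] at h2
      have h3 : ∑ a, q i a * (x a - y a) = 0 := by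
        simp only [mul_sub, Finset.sum_sub_distrib]
        linarith
      rw [h3, abs_zero]) a
    rw [mul_zero] at h1
    have h4 := abs_nonpos_iff.1 h1
    linarith
  have hU : IsUnit A := (Matrix.mulVec_injective_iff_isUnit).1 hinj
  have hdet : IsUnit A.det := (Matrix.isUnit_iff_isUnit_det A).1 hU
  have e1 : ∀ i j, ∑ a, q i a * A⁻¹ a j = if i = j then 1 else 0 := by
    intro i j
    have h2 : ∑ a, q i a * A⁻¹ a j = (A * A⁻¹) i j := by
      rw [Matrix.mul_apply]
      exact Finset.sum_congr rfl fun a _ => by rw [hAq]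
    rw [h2, Matrix.mul_nonsing_inv A hdet, Matrix.one_apply]
  have e2 : ∀ a b, ∑ j, A⁻¹ a j * q j b = if a = b then 1 else 0 := by
    intro a b
    have h2 : ∑ j, A⁻¹ a j * q j b = (A⁻¹ * A) a b := by
      rw [Matrix.mul_apply]
      exact Finset.sum_congr rfl fun j _ => by rw [hAq]
    rw [h2, Matrix.nonsing_inv_mul A hdet, Matrix.one_apply]
  refine ⟨fun a j => A⁻¹ a j, ?_, e2, e1⟩
  intro a j
  have h1 := h (fun a => A⁻¹ a j) 1 zero_le_one (by
    intro i
    rw [e1 i j]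
    split_ifs <;> simp) a
  rwa [mul_one] at h1

end Span

/-- **SPAN.** -/
theorem span_thm : SPANStmt := by
  intro n k₀
  rcases n with _ | m
  · refine ⟨0, 0, le_rfl, fun θ q _ _ _ => ⟨fun a => a.elim0, fun a => a.elim0,
      fun a => a.elim0, fun i => i.elim0⟩⟩
  obtain ⟨B₀, hB₀⟩ : ∃ B₀ : ℝ, B₀ = (m + 1) * 2 ^ ((k₀ + 1) * m) := ⟨_, rfl⟩
  have hB0 : 0 ≤ B₀ := by
    rw [hB₀]
    positivity
  obtain ⟨i₀, hi₀⟩ : ∃ i₀ : ℕ, 2 * B₀ * (m + 1) ^ 3 < (2 : ℝ) ^ i₀ :=
    pow_unbounded_of_one_lt _ one_lt_two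
  refine ⟨2 * B₀, i₀, by positivity, ?_⟩
  intro θ q hθ hs hq
  have hθ1 : ∀ j, |θ j| ≤ 1 := by
    intro j
    rw [abs_of_nonneg (hθ j).1]
    exact (hθ j).2
  have hinj := L48.sep_injective hs
  refine Span.exists_inv q (2 * B₀) ?_
  intro x F hF hx
  -- the largest entry
  obtain ⟨N, hN⟩ : ∃ N : ℝ, N = ‖x‖ := ⟨_, rfl⟩
  have hN0 : 0 ≤ N := by
    rw [hN]
    exact norm_nonneg _
  have hxN : ∀ a, |x a| ≤ N := by
    intro a
    rw [hN]
    exact norm_le_pi_norm x a
  obtain ⟨δ, hδ⟩ : ∃ δ : ℝ, δ = ((m + 1 : ℕ) : ℝ) ^ 2 / 2 ^ i₀ := ⟨_, rfl⟩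
  have hδ0 : 0 ≤ δ := by
    rw [hδ]
    positivity
  -- the polynomial
  obtain ⟨p, hp⟩ : ∃ p : Polynomial ℝ, p = ∑ a : Fin (m + 1),
      Polynomial.monomial a.val ((a.val + 1 : ℝ) * x a) := ⟨_, rfl⟩
  have hdeg : p.natDegree ≤ m := by
    rw [hp]
    refine Polynomial.natDegree_sum_le_of_forall_le _ _ fun a _ => ?_
    exact (Polynomial.natDegree_monomial_le _).trans (Nat.lt_succ_iff.1 a.2)
  have hcoeff : ∀ a : Fin (m + 1), p.coeff a.val = (a.val + 1 : ℝ) * x a := by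
    intro a
    rw [hp, Polynomial.finsetSum_coeff, Finset.sum_eq_single a]
    · rw [Polynomial.coeff_monomial, if_pos rfl]
    · intro b _ hb
      rw [Polynomial.coeff_monomial, if_neg]
      intro h
      exact hb (Fin.ext h)
    · intro h
      exact absurd (Finset.mem_univ a) h
  have heval : ∀ j, p.eval (θ j) = ∑ a : Fin (m + 1), (a.val + 1 : ℝ) * θ j ^ a.val * x a := by
    intro j
    rw [hp, Polynomial.eval_finsetSum]
    refine Finset.sum_congr rfl fun a _ => ?_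
    rw [Polynomial.eval_monomial]
    ring
  have hbd : ∀ j, |p.eval (θ j)| ≤ F + (m + 1) * (δ * N) := by
    intro j
    have e1 : p.eval (θ j) = ∑ a, q j a * x a -
        ∑ a : Fin (m + 1), (q j a - (a.val + 1 : ℝ) * θ j ^ a.val) * x a := by
      rw [heval, ← Finset.sum_sub_distrib]
      exact Finset.sum_congr rfl fun a _ => by ring
    have h2 : |∑ a : Fin (m + 1), (q j a - (a.val + 1 : ℝ) * θ j ^ a.val) * x a| ≤
        (m + 1) * (δ * N) := by
      refine (Finset.abs_sum_le_sum_abs _ _).trans ?_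
      have h3 : ∀ a ∈ (univ : Finset (Fin (m + 1))),
          |(q j a - (a.val + 1 : ℝ) * θ j ^ a.val) * x a| ≤ δ * N := by
        intro a _
        rw [abs_mul]
        refine mul_le_mul ?_ (hxN a) (abs_nonneg _) hδ0
        rw [hδ]
        exact hq j a
      refine (Finset.sum_le_card_nsmul _ _ _ h3).trans (le_of_eq ?_)
      rw [Finset.card_univ, Fintype.card_fin, nsmul_eq_mul]
      push_cast
      ring
    rw [e1]
    exact (abs_sub _ _).trans (add_le_add (hx j) h2)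
  have hkey : ∀ a, |x a| ≤ B₀ * (F + (m + 1) * (δ * N)) := by
    intro a
    have h1 := L48.lag_le θ (fun j => p.eval (θ j)) hθ1 hs hbd a.val
    rw [L48.lag_poly hinj p hdeg, hcoeff, abs_mul, ← hB₀] at h1
    have h2 : (1 : ℝ) ≤ |(a.val + 1 : ℝ)| := by
      rw [abs_of_nonneg (by positivity)]
      linarith [Nat.cast_nonneg (α := ℝ) a.val]
    have h3 : |x a| ≤ |(a.val + 1 : ℝ)| * |x a| := le_mul_of_one_le_left (abs_nonneg _) h2
    exact h3.trans h1
  have hNle : N ≤ B₀ * (F + (m + 1) * (δ * N)) := by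
    rw [hN]
    rw [← hN]
    have h0 : 0 ≤ B₀ * (F + (m + 1) * (δ * N)) := by positivity
    rw [hN, pi_norm_le_iff_of_nonneg (by rw [← hN]; exact h0)]
    intro a
    rw [Real.norm_eq_abs, ← hN]
    exact hkey a
  have hsmall : B₀ * ((m + 1) * δ) ≤ 1 / 2 := by
    rw [hδ]
    have h1 : B₀ * ((m + 1) * (((m + 1 : ℕ) : ℝ) ^ 2 / 2 ^ i₀)) =
        B₀ * (m + 1) ^ 3 / 2 ^ i₀ := by
      push_cast
      ring
    rw [h1, div_le_iff₀ (by positivity)]
    linarith
  have h5 : B₀ * (F + (m + 1) * (δ * N)) = B₀ * F + B₀ * ((m + 1) * δ) * N := by ring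
  have h6 : B₀ * ((m + 1) * δ) * N ≤ 1 / 2 * N := mul_le_mul_of_nonneg_right hsmall hN0
  have h7 : N ≤ 2 * B₀ * F := by
    rw [h5] at hNle
    linarith
  intro a
  exact (hxN a).trans h7

end Pool.M5
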